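import Pool.Agent.N332.GK.Defs
import Pool.Agent.N945.LS.KT2

set_option autoImplicit false

/-! # Project GK (helper332), A7: the moments in functions (helper441, after helper945) -/

namespace Pool.Agent.N441.GK

open Finset Pool.Agent.H384R3.SPk Pool.Agent.N356.SP Pool.Agent.N332.GK
open Pool.Agent.N263.LS (fA_apply muA_apply wA_apply re_int)

variable {m : ℕ} {C : Finset (ZMod m)} {θ : ZMod m → ZMod m → ℝ} {g f : ℤ →₀ ℝ}

/-- the recursion is compatible with the evaluation of real functions -/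
theorem GA_apply {μ w : C(ℝ, ℂ)} {a b : ℝ → ℝ} (hμ : ∀ x, μ x = (a x : ℂ))
    (hw : ∀ x, w x = (b x : ℂ)) (x : ℝ) : ∀ i : ℕ,
    (GA μ w i : C(ℝ, ℂ)) x = ((GA (a x) (b x) i : ℝ) : ℂ) := by
  have key : ∀ i : ℕ, (GA μ w i : C(ℝ, ℂ)) x = ((GA (a x) (b x) i : ℝ) : ℂ) ∧
      (GA μ w (i + 1) : C(ℝ, ℂ)) x = ((GA (a x) (b x) (i + 1) : ℝ) : ℂ) := by
    intro i
    induction i with
    | zero =>
      constructor
      · simp only [GA, ContinuousMap.add_apply, ContinuousMap.smul_apply, ContinuousMap.mul_apply,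
          ContinuousMap.pow_apply, hμ, hw, smul_eq_mul, Complex.real_smul]
        push_cast
        ring
      · simp only [GA, ContinuousMap.add_apply, ContinuousMap.smul_apply, ContinuousMap.mul_apply,
          ContinuousMap.pow_apply, hμ, hw, smul_eq_mul, Complex.real_smul]
        push_cast
        ring
    | succ i ih =>
      refine ⟨ih.2, ?_⟩
      have e : ∀ {R : Type} [CommRing R] [Algebra ℝ R] (μ w : R), GA μ w (i + 1 + 1) =
          ((2 * ((i : ℝ) + 6) - 1) / ((i : ℝ) + 6)) • (μ * GA μ w (i + 1)) +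
            cc ((i : ℝ) + 6) • (w * GA μ w i) := fun μ w => rfl
      rw [e, e, ContinuousMap.add_apply, ContinuousMap.smul_apply, ContinuousMap.smul_apply,
        ContinuousMap.mul_apply, ContinuousMap.mul_apply, ih.1, ih.2, hμ, hw]
      simp only [smul_eq_mul, Complex.real_smul]
      push_cast
      ring
  exact fun i => (key i).1

/-- A7: the moments in functions -/
theorem moment
    (HL : ∀ {m : ℕ} {K : Cone (ZMod m) C(ℝ, ℂ)} {L : C(ℝ, ℂ) →ₗ[ℝ] ℝ} {C : Finset (ZMod m)}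
      {θ : ZMod m → ZMod m → ℝ} {φ : ZMod m → C(ℝ, ℂ)} (_ : IsFun K L) (_ : GoodC C θ)
      (_ : ∀ c, φ c ∈ K.P c) (i : ℕ),
      L (GA (muA C φ) (wA C θ φ) i) ≤ L (fA C φ ^ (2 * (i + 4))))
    (h : GoodC C θ) (hf0 : ∀ n, 0 ≤ f n) (hf : ∀ n ∈ f.support, ((n : ℤ) : ZMod m) ∈ C) (i : ℕ) :
    ∫ x in (0:ℝ)..1, GA (muf C f x) (wf C θ f x) i ≤ Mc (i + 4) f := by
  obtain ⟨K, L, hL, hLF, hex⟩ := Pool.Agent.N97.LS.exists_cone m
  choose φ hφ hφx using hex f hf0
  have key := HL hL h hφ i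
  have e1 : L (GA (muA C φ) (wA C θ φ) i) =
      ∫ x in (0:ℝ)..1, GA (muf C f x) (wf C θ f x) i := by
    rw [hLF]
    exact re_int fun x => GA_apply (fun x => muA_apply hφx x)
      (fun x => wA_apply h.neg h.even hφx x) x i
  have e4 : L (fA C φ ^ (2 * (i + 4))) = Mc (i + 4) f := by
    rw [hLF]
    unfold Mc
    refine re_int fun x => ?_
    rw [ContinuousMap.pow_apply, fA_apply h.neg hf hφx, Complex.ofReal_pow]
  rw [e1, e4] at key
  exact key

end Pool.Agent.N441.GK
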